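import Pool.Agent.N299.PX.Stm

/-!
Project PX (helper299), leaf SP: strong pure infiniteness.
-/

set_option autoImplicit false

open Filter Topology

noncomputable section

namespace Pool.Agent.N14.PX

open Pool.Agent.N299 Pool.Agent.N299.DT Pool.Agent.N299.ND Pool.Agent.N299.PX

variable {B : Type} [CStarAlgebra B]

/-- null sequences -/
def Nul (u : ℕ → B) : Prop := Tendsto u atTop (𝓝 0)

/-- bounded sequences -/
def Bd (u : ℕ → B) : Prop := ∃ C : ℝ, 0 ≤ C ∧ ∀ k, ‖u k‖ ≤ C

/-- constant sequences -/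
def K (a : B) : ℕ → B := fun _ => a

lemma bd_K (a : B) : Bd (K a) := ⟨‖a‖, norm_nonneg _, fun _ => le_rfl⟩

lemma Bd.mul {u v : ℕ → B} (hu : Bd u) (hv : Bd v) : Bd (u * v) := by
  obtain ⟨C, hC, hu⟩ := hu
  obtain ⟨D, hD, hv⟩ := hv
  refine ⟨C * D, mul_nonneg hC hD, fun k => ?_⟩
  rw [Pi.mul_apply]
  exact (norm_mul_le _ _).trans (mul_le_mul (hu k) (hv k) (norm_nonneg _) hC)

lemma Bd.star' {u : ℕ → B} (hu : Bd u) : Bd (star u) := by
  obtain ⟨C, hC, hu⟩ := hu
  refine ⟨C, hC, fun k => ?_⟩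
  rw [Pi.star_apply, norm_star]
  exact hu k

lemma Nul.mul_left {u w : ℕ → B} (hu : Nul u) (hw : Bd w) : Nul (w * u) := by
  obtain ⟨C, hC, hw⟩ := hw
  unfold Nul at *
  rw [tendsto_zero_iff_norm_tendsto_zero] at hu ⊢
  have h1 : Tendsto (fun k => C * ‖u k‖) atTop (𝓝 0) := by
    simpa using hu.const_mul C
  refine squeeze_zero (fun _ => norm_nonneg _) (fun k => ?_) h1
  rw [Pi.mul_apply]
  exact (norm_mul_le _ _).trans (mul_le_mul_of_nonneg_right (hw k) (norm_nonneg _))

lemma Nul.mul_right {u w : ℕ → B} (hu : Nul u) (hw : Bd w) : Nul (u * w) := by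
  obtain ⟨C, hC, hw⟩ := hw
  unfold Nul at *
  rw [tendsto_zero_iff_norm_tendsto_zero] at hu ⊢
  have h1 : Tendsto (fun k => ‖u k‖ * C) atTop (𝓝 0) := by
    simpa using hu.mul_const C
  refine squeeze_zero (fun _ => norm_nonneg _) (fun k => ?_) h1
  rw [Pi.mul_apply]
  exact (norm_mul_le _ _).trans (mul_le_mul_of_nonneg_left (hw k) (norm_nonneg _))

lemma Nul.add {u v : ℕ → B} (hu : Nul u) (hv : Nul v) : Nul (u + v) := by
  have h : Tendsto (fun k => u k + v k) atTop (𝓝 (0 + 0)) := Tendsto.add hu hv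
  rw [add_zero] at h
  exact h

lemma Nul.neg {u : ℕ → B} (hu : Nul u) : Nul (-u) := by
  have h : Tendsto (fun k => -u k) atTop (𝓝 (-0)) := Tendsto.neg hu
  rw [neg_zero] at h
  exact h

lemma nul_zero : Nul (0 : ℕ → B) := tendsto_const_nhds

lemma nul_sum {ι : Type} (s : Finset ι) (f : ι → ℕ → B) (h : ∀ i ∈ s, Nul (f i)) :
    Nul (∑ i ∈ s, f i) := by
  classical
  induction s using Finset.induction_on with
  | empty => simpa using nul_zero
  | insert a s ha ih =>
    rw [Finset.sum_insert ha]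
    exact (h a (Finset.mem_insert_self a s)).add
      (ih fun i hi => h i (Finset.mem_insert_of_mem hi))

lemma nul_of_le {u : ℕ → B} (h : ∀ k : ℕ, ‖u k‖ ≤ 1 / ((k : ℝ) + 1)) : Nul u := by
  unfold Nul
  rw [tendsto_zero_iff_norm_tendsto_zero]
  exact squeeze_zero (fun _ => norm_nonneg _) h tendsto_one_div_add_atTop_nhds_zero_nat

lemma core {n : ℕ} (c0 : ℕ → B) (t : Fin n → ℕ → B) (a : B) (G : Fin n → B) (Y : ℕ → B)
    (C ε1 ε2 : ℝ) (hC : 0 ≤ C)
    (hY : Nul (Y - ∑ p, ∑ q, star (t p) * (c0 * c0) * K (star (G p) * a * G q) * t q))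
    (hc0 : ∀ k, ‖c0 k‖ ≤ 1) (ht : ∀ p k, ‖t p k‖ ≤ C)
    (hcomm : ∀ p, Nul (K a * t p - t p * K a))
    (hG : ∀ p q, ‖star (G p) * a * G q - (if p = q then a else 0)‖ ≤ ε1)
    (hP : ∀ k, ‖(∑ p, star (t p k) * (c0 k * c0 k) * t p k) * a - a‖ ≤ ε2)
    (δ : ℝ) (hδ : 0 < δ) :
    ∀ᶠ k in atTop, ‖Y k - a‖ ≤ (n : ℝ) * n * (C * C * ε1) + ε2 + δ := by
  have hbc : Bd c0 := ⟨1, zero_le_one, hc0⟩
  have hbt : ∀ p, Bd (t p) := fun p => ⟨C, hC, ht p⟩
  have hM : Nul (∑ p, star (t p) * (c0 * c0) * (K a * t p - t p * K a)) :=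
    nul_sum _ _ fun p _ => (hcomm p).mul_left ((hbt p).star'.mul (hbc.mul hbc))
  have hN := (hY.add hM).eventually (Metric.ball_mem_nhds (0 : B) hδ)
  filter_upwards [hN] with k hk
  rw [dist_zero_right, Pi.add_apply, Pi.sub_apply] at hk
  simp only [Finset.sum_apply, Pi.mul_apply, Pi.star_apply, Pi.sub_apply, K] at hk
  have hid : Y k - a = (Y k - ∑ p, ∑ q, star (t p k) * (c0 k * c0 k) * (star (G p) * a * G q) * t q k
      + ∑ p, star (t p k) * (c0 k * c0 k) * (a * t p k - t p k * a))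
      + ∑ p, ∑ q, star (t p k) * (c0 k * c0 k) *
        (star (G p) * a * G q - (if p = q then a else 0)) * t q k
      + ((∑ p, star (t p k) * (c0 k * c0 k) * t p k) * a - a) := by
    have e1 : ∀ p, ∑ q, star (t p k) * (c0 k * c0 k) *
        (star (G p) * a * G q - (if p = q then a else 0)) * t q k =
        ∑ q, star (t p k) * (c0 k * c0 k) * (star (G p) * a * G q) * t q k -
          star (t p k) * (c0 k * c0 k) * a * t p k := by
      intro p
      have e2 : ∑ q, star (t p k) * (c0 k * c0 k) * (if p = q then a else 0) * t q k =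
          star (t p k) * (c0 k * c0 k) * a * t p k := by
        rw [Finset.sum_eq_single p]
        · rw [if_pos rfl]
        · intro q _ hq
          rw [if_neg (Ne.symm hq)]
          simp
        · intro h
          exact absurd (Finset.mem_univ p) h
      rw [← e2, ← Finset.sum_sub_distrib]
      refine Finset.sum_congr rfl fun q _ => ?_
      rw [mul_sub, sub_mul]
    rw [Finset.sum_congr rfl fun p _ => e1 p, Finset.sum_sub_distrib]
    have e3 : ∑ p, star (t p k) * (c0 k * c0 k) * (a * t p k - t p k * a) =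
        ∑ p, star (t p k) * (c0 k * c0 k) * a * t p k -
          (∑ p, star (t p k) * (c0 k * c0 k) * t p k) * a := by
      rw [Finset.sum_mul, ← Finset.sum_sub_distrib]
      refine Finset.sum_congr rfl fun p _ => ?_
      rw [mul_sub]
      simp only [mul_assoc]
    rw [e3]
    abel
  rw [hid]
  have hE : ‖∑ p, ∑ q, star (t p k) * (c0 k * c0 k) *
        (star (G p) * a * G q - (if p = q then a else 0)) * t q k‖ ≤
        (n : ℝ) * n * (C * C * ε1) := by
    have e1 : ∀ p q, ‖star (t p k) * (c0 k * c0 k) *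
        (star (G p) * a * G q - (if p = q then a else 0)) * t q k‖ ≤ C * C * ε1 := by
      intro p q
      have f1 : ‖star (t p k) * (c0 k * c0 k)‖ ≤ C := by
        refine (norm_mul_le _ _).trans ?_
        rw [norm_star]
        have f2 : ‖c0 k * c0 k‖ ≤ 1 := by
          refine (norm_mul_le _ _).trans ?_
          nlinarith [hc0 k, norm_nonneg (c0 k)]
        nlinarith [ht p k, norm_nonneg (t p k), norm_nonneg (c0 k * c0 k)]
      have f3 := hG p q
      have f4 := ht q k
      have f5 : ‖star (t p k) * (c0 k * c0 k) *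
        (star (G p) * a * G q - (if p = q then a else 0))‖ ≤ C * ε1 :=
        (norm_mul_le _ _).trans (mul_le_mul f1 f3 (norm_nonneg _) hC)
      have hε1 : 0 ≤ ε1 := (norm_nonneg _).trans f3
      calc _ ≤ (C * ε1) * C := (norm_mul_le _ _).trans
            (mul_le_mul f5 f4 (norm_nonneg _) (mul_nonneg hC hε1))
        _ = C * C * ε1 := by ring
    refine (norm_sum_le _ _).trans ?_
    refine (Finset.sum_le_sum fun p _ => (norm_sum_le _ _).trans
      (Finset.sum_le_sum fun q _ => e1 p q)).trans (le_of_eq ?_)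
    simp only [Finset.sum_const, Finset.card_univ, Fintype.card_fin, nsmul_eq_mul]
    ring
  have hPk := hP k
  refine (norm_add₃_le).trans ?_
  linarith [hk.le]

lemma star_K (y : B) : star (K y) = K (star y) := rfl

lemma K_mul3 (x y z : B) : K (x * y * z) = K x * K y * K z := rfl

lemma expand {n : ℕ} (T : Fin n → ℕ → B) (g g' : Fin n → B) (c c' : ℕ → B) (x : B) :
    star (∑ p, K (g p) * T p) * c * K x * (c' * ∑ q, K (g' q) * T q) =
      ∑ p, ∑ q, star (T p) * (K (star (g p)) * c * K x * c' * K (g' q)) * T q := by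
  have h1 : star (∑ p, K (g p) * T p) * c * K x * (c' * ∑ q, K (g' q) * T q) =
      (star (∑ p, K (g p) * T p) * (c * K x * c')) * ∑ q, K (g' q) * T q := by
    simp only [mul_assoc]
  rw [h1, star_sum, Finset.sum_mul, Finset.sum_mul_sum]
  refine Finset.sum_congr rfl fun p _ => Finset.sum_congr rfl fun q _ => ?_
  rw [star_mul, star_K]
  simp only [mul_assoc]

theorem t_SP : S_SP := by
  classical
  intro B _ I hI hTT hR a ha b hb x hx hpa hpb ε hε
  obtain ⟨C, hC1, hTT⟩ := hTT 1 {a, b} (ε / 3) (by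
    intro y hy
    rw [Finset.mem_insert, Finset.mem_singleton] at hy
    rcases hy with rfl | rfl
    · exact ha
    · exact hb) (by positivity)
  have hC0 : 0 ≤ C := by linarith
  obtain ⟨ε1, hε1⟩ : ∃ ε1, ε1 = ε / (3 * (9 * C ^ 2 + 1)) := ⟨_, rfl⟩
  have hε1p : 0 < ε1 := by rw [hε1]; positivity
  have hε2 : 9 * C ^ 2 * ε1 ≤ ε / 3 := by
    have h1 : (3 * (9 * C ^ 2 + 1)) * ε1 = ε := by rw [hε1]; field_simp
    nlinarith
  obtain ⟨r, hrI, hr⟩ := hR 3 a ha hpa ε1 hε1p
  obtain ⟨r', hrI', hr'⟩ := hR 3 b hb hpb ε1 hε1p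
  obtain ⟨g, hg⟩ : ∃ g : Fin 3 → B, g = r 0 := ⟨_, rfl⟩
  obtain ⟨g', hg'⟩ : ∃ g' : Fin 3 → B, g' = r' 0 := ⟨_, rfl⟩
  have hgI : ∀ p, g p ∈ I := fun p => by rw [hg]; exact hrI 0 p
  have hgI' : ∀ p, g' p ∈ I := fun p => by rw [hg']; exact hrI' 0 p
  have hga : ∀ p q, ‖star (g p) * a * g q - (if p = q then a else 0)‖ ≤ ε1 := by
    intro p q
    have h1 := hr p q
    rw [Fin.sum_univ_one] at h1
    rw [hg]
    exact h1
  have hgb : ∀ p q, ‖star (g' p) * b * g' q - (if p = q then b else 0)‖ ≤ ε1 := by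
    intro p q
    have h1 := hr' p q
    rw [Fin.sum_univ_one] at h1
    rw [hg']
    exact h1
  obtain ⟨F', hF'⟩ : ∃ F' : Finset B, F' = {a, b, x} ∪ Finset.univ.image g ∪
      Finset.univ.image g' ∪ Finset.univ.image (fun p => star (g p)) ∪
      Finset.univ.image (fun p => star (g' p)) := ⟨_, rfl⟩
  have hF'I : ∀ y ∈ F', y ∈ I := by
    intro y hy
    rw [hF'] at hy
    simp only [Finset.mem_union, Finset.mem_insert, Finset.mem_singleton, Finset.mem_image,
      Finset.mem_univ, true_and] at hy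
    rcases hy with (((((rfl | rfl | rfl)) | ⟨p, rfl⟩) | ⟨p, rfl⟩) | ⟨p, rfl⟩) | ⟨p, rfl⟩
    · exact ha
    · exact hb
    · exact hx
    · exact hgI p
    · exact hgI' p
    · exact hI.star _ (hgI p)
    · exact hI.star _ (hgI' p)
  have maF : a ∈ F' := by rw [hF']; simp
  have mbF : b ∈ F' := by rw [hF']; simp
  have mxF : x ∈ F' := by rw [hF']; simp
  have mgF : ∀ p, g p ∈ F' := fun p => by rw [hF']; simp
  have mgF' : ∀ p, g' p ∈ F' := fun p => by rw [hF']; simp
  have msF : ∀ p, star (g p) ∈ F' := fun p => by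
    rw [hF']
    exact Finset.mem_union_left _ (Finset.mem_union_right _
      (Finset.mem_image.2 ⟨p, Finset.mem_univ p, rfl⟩))
  have msF' : ∀ p, star (g' p) ∈ F' := fun p => by
    rw [hF']
    exact Finset.mem_union_right _ (Finset.mem_image.2 ⟨p, Finset.mem_univ p, rfl⟩)
  choose c t hcI htI hc1 htC hsa hcomm hPF using fun k : ℕ =>
    hTT F' (1 / ((k : ℝ) + 1)) hF'I (by positivity)
  obtain ⟨c0, hc0⟩ : ∃ c0 : ℕ → B, c0 = fun k => c k 0 := ⟨_, rfl⟩
  obtain ⟨c1, hc1'⟩ : ∃ c1 : ℕ → B, c1 = fun k => c k 1 := ⟨_, rfl⟩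
  obtain ⟨T, hT⟩ : ∃ T : Fin 3 → ℕ → B, T = fun p k => t k p := ⟨_, rfl⟩
  have nc0 : ∀ k, ‖c0 k‖ ≤ 1 := fun k => by rw [hc0]; exact hc1 k 0
  have nc1 : ∀ k, ‖c1 k‖ ≤ 1 := fun k => by rw [hc1']; exact hc1 k 1
  have nT : ∀ p k, ‖T p k‖ ≤ C := fun p k => by rw [hT]; exact htC k p
  have bc0 : Bd c0 := ⟨1, zero_le_one, nc0⟩
  have bc1 : Bd c1 := ⟨1, zero_le_one, nc1⟩
  have bT : ∀ p, Bd (T p) := fun p => ⟨C, hC0, nT p⟩
  have sc0 : star c0 = c0 := by
    funext k
    rw [Pi.star_apply, hc0]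
    exact hsa k
  have k0 : ∀ y ∈ F', Nul (c0 * K y - K y * c0) := fun y hy => nul_of_le fun k => by
    rw [hc0]
    exact (hcomm k y hy).1 0
  have k1 : ∀ y ∈ F', Nul (c1 * K y - K y * c1) := fun y hy => nul_of_le fun k => by
    rw [hc1']
    exact (hcomm k y hy).1 1
  have kT : ∀ y ∈ F', ∀ p, Nul (T p * K y - K y * T p) := fun y hy p => nul_of_le fun k => by
    rw [hT]
    exact (hcomm k y hy).2.1 p
  have k11 : ∀ y ∈ F', Nul ((c1 * star c1 - c0 * c0) * K y) := fun y hy => nul_of_le fun k => by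
    rw [hc0, hc1']
    have h1 := (hcomm k y hy).2.2 1 1
    rw [if_pos rfl] at h1
    exact h1
  have k01 : ∀ y ∈ F', Nul (c0 * star c1 * K y) := fun y hy => nul_of_le fun k => by
    rw [hc0, hc1']
    have h1 := (hcomm k y hy).2.2 0 1
    rw [if_neg (by decide), sub_zero] at h1
    exact h1
  have nswap : ∀ u v : ℕ → B, Nul (u - v) → Nul (v - u) := fun u v h => by
    rw [← neg_sub]
    exact h.neg
  -- the three sequences
  obtain ⟨D, hD⟩ : ∃ D : ℕ → B, D = star (∑ p, K (g p) * T p) * c0 := ⟨_, rfl⟩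
  obtain ⟨E, hE⟩ : ∃ E : ℕ → B, E = star (∑ p, K (g' p) * T p) * c1 := ⟨_, rfl⟩
  have sD : star D = c0 * ∑ p, K (g p) * T p := by rw [hD, star_mul, star_star, sc0]
  have sE : star E = star c1 * ∑ p, K (g' p) * T p := by rw [hE, star_mul, star_star]
  have y1 : Nul (D * K a * star D -
      ∑ p, ∑ q, star (T p) * (c0 * c0) * K (star (g p) * a * g q) * T q) := by
    rw [sD, hD, expand, ← Finset.sum_sub_distrib]
    refine nul_sum _ _ fun p _ => ?_
    rw [← Finset.sum_sub_distrib]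
    refine nul_sum _ _ fun q _ => ?_
    have hid : star (T p) * (K (star (g p)) * c0 * K a * c0 * K (g q)) * T q -
        star (T p) * (c0 * c0) * K (star (g p) * a * g q) * T q =
        star (T p) * (K (star (g p)) * c0 * (K a * c0 - c0 * K a) * K (g q) +
          (K (star (g p)) * c0 - c0 * K (star (g p))) * (c0 * K a * K (g q)) +
          c0 * ((K (star (g p)) * c0 - c0 * K (star (g p))) * (K a * K (g q)))) * T q := by
      rw [K_mul3]
      noncomm_ring
    rw [hid]
    refine Nul.mul_right (Nul.mul_left (Nul.add (Nul.add ?_ ?_) ?_) (bT p).star') (bT q)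
    · exact ((nswap _ _ (k0 a maF)).mul_left ((bd_K _).mul bc0)).mul_right (bd_K _)
    · exact (nswap _ _ (k0 _ (msF p))).mul_right ((bc0.mul (bd_K _)).mul (bd_K _))
    · exact ((nswap _ _ (k0 _ (msF p))).mul_right ((bd_K _).mul (bd_K _))).mul_left bc0
  have y2 : Nul (E * K b * star E -
      ∑ p, ∑ q, star (T p) * (c0 * c0) * K (star (g' p) * b * g' q) * T q) := by
    rw [sE, hE, expand, ← Finset.sum_sub_distrib]
    refine nul_sum _ _ fun p _ => ?_
    rw [← Finset.sum_sub_distrib]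
    refine nul_sum _ _ fun q _ => ?_
    have hid : star (T p) * (K (star (g' p)) * c1 * K b * star c1 * K (g' q)) * T q -
        star (T p) * (c0 * c0) * K (star (g' p) * b * g' q) * T q =
        star (T p) * (K (star (g' p)) * (c1 * K b - K b * c1) * (star c1 * K (g' q)) +
          K (star (g' p)) * K b * ((c1 * star c1 - c0 * c0) * K (g' q)) +
          K (star (g' p)) * (K b * c0 - c0 * K b) * (c0 * K (g' q)) +
          K (star (g' p)) * c0 * (K b * c0 - c0 * K b) * K (g' q) +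
          (K (star (g' p)) * c0 - c0 * K (star (g' p))) * (c0 * K b * K (g' q)) +
          c0 * ((K (star (g' p)) * c0 - c0 * K (star (g' p))) * (K b * K (g' q)))) * T q := by
      rw [K_mul3]
      noncomm_ring
    rw [hid]
    refine Nul.mul_right (Nul.mul_left (Nul.add (Nul.add (Nul.add (Nul.add (Nul.add ?_ ?_) ?_)
      ?_) ?_) ?_) (bT p).star') (bT q)
    · exact ((k1 b mbF).mul_left (bd_K _)).mul_right (bc1.star'.mul (bd_K _))
    · exact (k11 _ (mgF' q)).mul_left ((bd_K _).mul (bd_K _))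
    · exact ((nswap _ _ (k0 b mbF)).mul_left (bd_K _)).mul_right (bc0.mul (bd_K _))
    · exact ((nswap _ _ (k0 b mbF)).mul_left ((bd_K _).mul bc0)).mul_right (bd_K _)
    · exact (nswap _ _ (k0 _ (msF' p))).mul_right ((bc0.mul (bd_K _)).mul (bd_K _))
    · exact ((nswap _ _ (k0 _ (msF' p))).mul_right ((bd_K _).mul (bd_K _))).mul_left bc0
  have y3 : Nul (D * K x * star E) := by
    rw [sE, hD, expand]
    refine nul_sum _ _ fun p _ => ?_
    refine nul_sum _ _ fun q _ => ?_
    have hid : star (T p) * (K (star (g p)) * c0 * K x * star c1 * K (g' q)) * T q =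
        star (T p) * (K (star (g p)) * (c0 * K x - K x * c0) * (star c1 * K (g' q)) +
          K (star (g p)) * K x * (c0 * star c1 * K (g' q))) * T q := by
      noncomm_ring
    rw [hid]
    refine Nul.mul_right (Nul.mul_left (Nul.add ?_ ?_) (bT p).star') (bT q)
    · exact ((k0 x mxF).mul_left (bd_K _)).mul_right (bc1.star'.mul (bd_K _))
    · exact (k01 _ (mgF' q)).mul_left ((bd_K _).mul (bd_K _))
  have e1 := core c0 T a g (D * K a * star D) C ε1 (ε / 3) hC0 y1 nc0 nT
    (fun p => nswap _ _ (kT a maF p)) hga (fun k => by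
      rw [hc0, hT]
      exact hPF k a (by simp)) (ε / 3) (by positivity)
  have e2 := core c0 T b g' (E * K b * star E) C ε1 (ε / 3) hC0 y2 nc0 nT
    (fun p => nswap _ _ (kT b mbF p)) hgb (fun k => by
      rw [hc0, hT]
      exact hPF k b (by simp)) (ε / 3) (by positivity)
  have e3 := y3.eventually (Metric.ball_mem_nhds (0 : B) hε)
  obtain ⟨k, h1, h2, h3⟩ := (e1.and (e2.and e3)).exists
  refine ⟨D k, ?_, E k, ?_, ?_, ?_, ?_⟩
  · rw [hD]
    exact hI.mulL _ (by rw [hc0]; exact hcI k 0) _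
  · rw [hE]
    exact hI.mulL _ (by rw [hc1']; exact hcI k 1) _
  · refine le_trans h1 ?_
    push_cast
    nlinarith
  · refine le_trans h2 ?_
    push_cast
    nlinarith
  · rw [dist_zero_right] at h3
    exact h3.le

end Pool.Agent.N14.PX
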